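import Pool.Agent.H.MP_1867c4_co.G

namespace Pool.Agent.Results.MP_1867c4_co.Bip

open Finset Pool.Agent.H.MP_1867c4_co.G

variable {V : Type} [Fintype V] [DecidableEq V]

/-- A broadcast: a natural-number value at each vertex, at most its eccentricity. -/
def Broadcast (G : SimpleGraph V) (f : V → ℕ) : Prop := ∀ v, (f v : ℕ∞) ≤ G.eccent v

/-- The vertex `u` hears `f` from some broadcasting vertex. -/
def Hears (G : SimpleGraph V) (f : V → ℕ) (u : V) : Prop := ∃ v, 0 < f v ∧ G.dist u v ≤ f v

/-- Minimal dominating broadcast. -/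
def MinDom (G : SimpleGraph V) (f : V → ℕ) : Prop :=
  Broadcast G f ∧ (∀ u, Hears G f u) ∧ ∀ g, Broadcast G g → g < f → ¬∀ u, Hears G g u

/-- Irredundant broadcast: every broadcasting vertex has a nonempty private boundary. -/
def Irredundant (G : SimpleGraph V) (f : V → ℕ) : Prop :=
  Broadcast G f ∧ ∀ v, 0 < f v →
    ∃ u, G.dist u v ≤ f v ∧ ¬Hears G (Function.update f v (f v - 1)) u

lemma geo (G : SimpleGraph V) (hG : G.Connected) (v u : V) :
    G.dist u v + 1 ≤ (univ.filter fun x => G.dist x v + G.dist u x = G.dist u v).card := by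
  have h : range (G.dist u v + 1) ⊆
      (univ.filter fun x => G.dist x v + G.dist u x = G.dist u v).image (fun x => G.dist u x) := by
    intro i hi
    have hi' := mem_range.1 hi
    obtain ⟨p, hp⟩ := hG.exists_walk_length_eq_dist u v
    have h1 := SimpleGraph.dist_le (p.take i)
    have h2 := SimpleGraph.dist_le (p.drop i)
    rw [SimpleGraph.Walk.take_length] at h1
    rw [SimpleGraph.Walk.drop_length] at h2
    have h3 := hG.dist_triangle (u := u) (v := p.getVert i) (w := v)
    have h4 : i ⊓ p.length ≤ i := inf_le_left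
    refine mem_image.2 ⟨p.getVert i, mem_filter.2 ⟨mem_univ _, by omega⟩, by omega⟩
  have := (card_le_card h).trans card_image_le
  simpa using this

lemma irr_lt [Nontrivial V] (G : SimpleGraph V) (hG : G.Connected) (f : V → ℕ) (hf : Irredundant G f) :
    ∑ v, f v < Fintype.card V := by
  choose! u hu1 hu2 using hf.2
  let S : V → Finset V := fun v => univ.filter fun x => G.dist x v + G.dist (u v) x = G.dist (u v) v
  have far : ∀ v w, 0 < f v → 0 < f w → v ≠ w → f w < G.dist (u v) w := by
    intro v w hv hw hne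
    by_contra hh
    exact hu2 v hv ⟨w, by rwa [Function.update_of_ne hne.symm],
      by rw [Function.update_of_ne hne.symm]; omega⟩
  have big : ∀ v, 0 < f v → f v ≤ (S v).card := by
    intro v hv
    have h1 := geo G hG v (u v)
    have h2 : f v ≤ G.dist (u v) v + 1 := by
      by_contra hh
      exact hu2 v hv ⟨v, by rw [Function.update_self]; omega, by rw [Function.update_self]; omega⟩
    exact h2.trans h1
  have disj : ((univ.filter fun v => 0 < f v : Finset V) : Set V).PairwiseDisjoint S := by
    intro v hv w hw hne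
    have hv' : 0 < f v := (mem_filter.1 (mem_coe.1 hv)).2
    have hw' : 0 < f w := (mem_filter.1 (mem_coe.1 hw)).2
    refine disjoint_left.2 fun x h1 h2 => ?_
    have h3 := (mem_filter.1 h1).2
    have h4 := (mem_filter.1 h2).2
    have h5 := far v w hv' hw' hne
    have h6 := far w v hw' hv' hne.symm
    have h7 := hG.dist_triangle (u := u v) (v := x) (w := w)
    have h8 := hG.dist_triangle (u := u w) (v := x) (w := v)
    have h9 := hu1 v hv'
    have h10 := hu1 w hw'
    omega
  have e1 : ∑ v, f v = ∑ v ∈ univ.filter fun v => 0 < f v, f v :=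
    (sum_filter_of_ne fun v _ h => Nat.pos_of_ne_zero h).symm
  by_cases hex : ∃ v, 0 < f v ∧ G.dist (u v) v = f v
  · obtain ⟨v, hv, hd⟩ := hex
    calc ∑ v, f v = ∑ v ∈ univ.filter fun v => 0 < f v, f v := e1
      _ < ∑ v ∈ univ.filter fun v => 0 < f v, (S v).card :=
          sum_lt_sum (fun v hv => big v (mem_filter.1 hv).2)
            ⟨v, mem_filter.2 ⟨mem_univ _, hv⟩, by
              have h1 := geo G hG v (u v)
              have h2 : G.dist (u v) v + 1 ≤ (S v).card := h1
              omega⟩
      _ = ((univ.filter fun v => 0 < f v).biUnion S).card := (card_biUnion disj).symm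
      _ ≤ Fintype.card V := card_le_univ _
  · have one : ∀ v, 0 < f v → f v = 1 ∧ G.dist (u v) v = 0 := by
      intro v hv
      have h1 := hu1 v hv
      have h2 : G.dist (u v) v ≠ f v := fun e => hex ⟨v, hv, e⟩
      have h3 : f v = 1 := by
        by_contra hh
        exact hu2 v hv
          ⟨v, by rw [Function.update_self]; omega, by rw [Function.update_self]; omega⟩
      omega
    obtain ⟨a⟩ : Nonempty V := inferInstance
    obtain ⟨b, hab⟩ := hG.preconnected.exists_adj_of_nontrivial a
    have h0 : ∃ z, f z = 0 := by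
      by_contra hh
      have ha : 0 < f a := Nat.pos_of_ne_zero fun e => hh ⟨a, e⟩
      have hb : 0 < f b := Nat.pos_of_ne_zero fun e => hh ⟨b, e⟩
      have h1 := far a b ha hb hab.ne
      have h2 := hG.dist_triangle (u := u a) (v := a) (w := b)
      have h3 := SimpleGraph.dist_eq_one_iff_adj.2 hab
      have h4 := (one a ha).2
      omega
    obtain ⟨z, hz⟩ := h0
    rw [← card_univ, card_eq_sum_ones]
    refine sum_lt_sum (fun v _ => ?_) ⟨z, mem_univ _, by omega⟩
    rcases Nat.eq_zero_or_pos (f v) with h | h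
    · omega
    · exact (one v h).1.le

lemma cls [Nontrivial V] (G : SimpleGraph V) (hG : G.Connected) (c : G.Coloring (Fin 2))
    (k : Fin 2) : MinDom G (fun v => if c v = k then 1 else 0) := by
  have nb : ∀ v, ∃ w, G.Adj v w := fun v => hG.preconnected.exists_adj_of_nontrivial v
  refine ⟨fun v => ?_, fun u => ?_, fun g _ hg hd => ?_⟩
  · obtain ⟨w, hw⟩ := nb v
    have h1 : G.edist v w ≤ G.eccent v := SimpleGraph.edist_le_eccent
    rw [SimpleGraph.edist_eq_one_iff_adj.2 hw] at h1
    simp only
    split_ifs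
    · simpa using h1
    · simp
  · by_cases h : c u = k
    · exact ⟨u, by simp [h], by simp⟩
    · obtain ⟨w, hw⟩ := nb u
      have h1 := c.valid hw
      have h2 : c w = k := by omega
      exact ⟨w, by simp [h2], by simp [h2, SimpleGraph.dist_eq_one_iff_adj.2 hw]⟩
  · obtain ⟨hle, v, hv⟩ := Pi.lt_def.1 hg
    obtain ⟨w, hw1, hw2⟩ := hd v
    have h1 := hle w
    simp only at hv h1
    have hcv : c v = k := by by_contra h; simp [h] at hv
    have hcw : c w = k := by by_contra h; simp [h] at h1; omega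
    rw [if_pos hcv] at hv
    rw [if_pos hcw] at h1
    have hne : v ≠ w := by rintro rfl; omega
    have h2 := hG.pos_dist_of_ne hne
    have h3 : G.Adj v w := SimpleGraph.dist_eq_one_iff_adj.1 (by omega)
    exact c.valid h3 (hcv.trans hcw.symm)

theorem upper (V : Type) [Fintype V] [DecidableEq V] [Nontrivial V] (G : SimpleGraph V)
    (hG : G.Connected) (hb : G.IsBipartite) (f : V → ℕ) (hf : Irredundant G f) :
    ∃ g, MinDom G g ∧ ∑ v, f v < 2 * ∑ v, g v := by
  obtain ⟨c⟩ := hb
  have h1 := irr_lt G hG f hf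
  have h2 : ∑ v, (if c v = 0 then 1 else 0) + ∑ v, (if c v = 1 then 1 else 0) = Fintype.card V := by
    rw [← sum_add_distrib, ← card_univ, card_eq_sum_ones]
    refine sum_congr rfl fun v _ => ?_
    split_ifs <;> omega
  rcases le_total (∑ v, (if c v = 0 then 1 else 0)) (∑ v, (if c v = 1 then 1 else 0)) with h | h
  · exact ⟨_, cls G hG c 1, by omega⟩
  · exact ⟨_, cls G hG c 0, by omega⟩

lemma priv (G : SimpleGraph V) (g : V → ℕ) (hg : MinDom G g) (v : V) (hv : 0 < g v) :
    ∃ u, G.dist u v ≤ g v ∧ (g v ≤ G.dist u v ∨ g v = 1) ∧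
      ∀ w, w ≠ v → 0 < g w → g w < G.dist u w := by
  have hlt : Function.update g v (g v - 1) < g := by
    refine Pi.lt_def.2 ⟨fun w => ?_, v, by rw [Function.update_self]; omega⟩
    by_cases h : w = v
    · rw [h, Function.update_self]; exact Nat.sub_le _ _
    · rw [Function.update_of_ne h]
  have hb : Broadcast G (Function.update g v (g v - 1)) := fun w =>
    le_trans (by exact_mod_cast hlt.le w) (hg.1 w)
  obtain ⟨u, hu⟩ := not_forall.1 (hg.2.2 _ hb hlt)
  have far : ∀ w, w ≠ v → 0 < g w → g w < G.dist u w := by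
    intro w hw h0
    by_contra hh
    exact hu ⟨w, by rwa [Function.update_of_ne hw], by rw [Function.update_of_ne hw]; omega⟩
  obtain ⟨w, hw1, hw2⟩ := hg.2.1 u
  have e : w = v := by
    by_contra h
    have := far w h hw1
    omega
  subst e
  refine ⟨u, hw2, ?_, far⟩
  by_contra hh
  exact hu ⟨w, by rw [Function.update_self]; omega, by rw [Function.update_self]; omega⟩

def f0 (m s : ℕ) (x : W m s) : ℕ := if x.1.val = 0 ∧ x.2 ≠ none then m else 0

lemma f0_irr (m s : ℕ) : Irredundant (Gr m s) (f0 m s) := by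
  refine ⟨fun v => ?_, fun v hv => ?_⟩
  · unfold f0
    split_ifs with h
    · obtain ⟨i, _ | p⟩ := v
      · simp at h
      · have h1 : (Gr m s).edist (i, some p) (Fin.last m, some p) ≤ (Gr m s).eccent (i, some p) :=
          SimpleGraph.edist_le_eccent
        refine le_trans ?_ h1
        rw [← (conn.preconnected _ _).coe_dist_eq_edist, dist_eq]
        have h2 : i.val = 0 := h.1
        simp [D, c, h2]
    · simp
  · obtain ⟨i, _ | p⟩ := v
    · simp [f0] at hv
    · have hi : i.val = 0 := by
        by_contra h; simp only [f0, h, false_and, if_false] at hv; omega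
      have hf : f0 m s (i, some p) = m := by simp only [f0, hi]; simp
      refine ⟨(Fin.last m, some p), by rw [hf, dist_eq]; simp [D, c, hi], ?_⟩
      rintro ⟨w, h1, h2⟩
      rw [dist_eq] at h2
      by_cases e : w = (i, some p)
      · subst e
        rw [Function.update_self, hf] at h1 h2
        simp [D, c, hi] at h2
        omega
      · rw [Function.update_of_ne e] at h1 h2
        obtain ⟨j, _ | q⟩ := w
        · simp [f0] at h1
        · have hj : j.val = 0 := by
            by_contra h; simp only [f0, h, false_and, if_false] at h1; omega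
          have hf' : f0 m s (j, some q) = m := by simp only [f0, hj]; simp
          rw [hf'] at h2
          simp only [D, c, hj, Fin.val_last] at h2
          apply e
          split_ifs at h2 with a1 a2
          · rw [Fin.ext (hj.trans hi.symm), Prod.ext a1 (Fin.ext a2)]
          all_goals omega

lemma f0_sum (m s : ℕ) : ∑ v, f0 m s v = 2 * (s + 1) * m := by
  rw [Fintype.sum_prod_type, Fin.sum_univ_succ]
  simp [f0, Fintype.sum_option]

def cl {m s : ℕ} (x : W m s) : Fin (m + 1) × Option Bool := (x.1, x.2.map Prod.fst)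

def lay (i _r j : ℕ) : Finset ℕ := if j = i then {i} else if i < j then Ioc i j else Ico j i

lemma g_sum (m s : ℕ) (g : W m s → ℕ) (hg : MinDom (Gr m s) g) :
    ∑ v, g v ≤ (s + 1) * (m + 1) + 3 * (m + 1) * (m + 2) := by
  classical
  choose! u hu1 hu2 hu3 using priv _ g hg
  simp only [dist_eq] at hu1 hu2 hu3
  have gle : ∀ v, g v ≤ m + 2 := by
    intro v
    rcases Nat.eq_zero_or_pos (g v) with h | h
    · omega
    · have := hu2 v h
      have := D_le (u v) v
      omega
  let Ex : W m s → Prop := fun v => ∀ x, cl x = cl (u v) → D x v ≤ g v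
  have e1 : ∑ v, g v = ∑ v ∈ univ.filter (fun v => 0 < g v ∧ Ex v), g v
      + ∑ v ∈ univ.filter (fun v => 0 < g v ∧ ¬Ex v), g v := by
    rw [sum_filter, sum_filter, ← sum_add_distrib]
    refine sum_congr rfl fun v _ => ?_
    by_cases h1 : 0 < g v <;> by_cases h2 : Ex v <;> simp [h1, h2]
    all_goals omega
  have e2 : (univ.filter (fun v => 0 < g v ∧ Ex v)).card ≤ 3 * (m + 1) := by
    have := card_le_card_of_injOn (s := univ.filter (fun v => 0 < g v ∧ Ex v))
      (t := (univ : Finset (Fin (m + 1) × Option Bool))) (fun v => cl (u v))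
      (fun _ _ => mem_coe.2 (mem_univ _)) (by
        intro v hv w hw e
        have hv' := (mem_filter.1 (mem_coe.1 hv)).2
        have hw' := (mem_filter.1 (mem_coe.1 hw)).2
        by_contra hne
        have h1 := hw'.2 (u v) e
        have h2 := hu3 v hv'.1 w (Ne.symm hne) hw'.1
        omega)
    simpa [mul_comm] using this
  have e3 : ∑ v ∈ univ.filter (fun v => 0 < g v ∧ Ex v), g v ≤ 3 * (m + 1) * (m + 2) :=
    le_trans (sum_le_card_nsmul _ _ _ fun v _ => gle v) (Nat.mul_le_mul_right _ e2)
  have nex : ∀ v, 0 < g v → ¬Ex v → ∃ p, v.2 = some p ∧ (u v).2 = some p ∧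
      ∀ w, 0 < g w → ¬∀ x, cl x = cl (u v) → D x w ≤ g w := by
    intro v hv hE
    have k1 : ∀ w, 0 < g w → ¬∀ x, cl x = cl (u v) → D x w ≤ g w := by
      intro w hw hh
      by_cases e : w = v
      · subst e; exact hE hh
      · have h1 := hh (u v) rfl
        have h2 := hu3 v hv w e hw
        omega
    by_contra hh
    apply hE
    intro x hx
    have h1 := hu1 v hv
    refine le_trans ?_ h1
    have hh' : ∀ p, v.2 = some p → (u v).2 ≠ some p := fun p a b => hh ⟨p, a, b, k1⟩
    generalize u v = y at hx hh'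
    rcases x with ⟨i, _ | ⟨b, t⟩⟩ <;> rcases y with ⟨j, _ | ⟨b', t'⟩⟩ <;>
      simp only [cl, Option.map, Prod.mk.injEq, Option.some.injEq, reduceCtorEq, and_false] at hx
    · rw [hx.1]
    · obtain ⟨rfl, rfl⟩ := hx
      obtain ⟨k, _ | ⟨b', t''⟩⟩ := v
      · simp [D, c]
      · have h3 := hh' (b', t'') rfl
        have h4 : b = b' → t'.val ≠ t''.val := fun a1 a3 => h3 (by rw [a1, Fin.ext a3])
        simp only [D, c]
        by_cases a1 : b = b'
        · have h5 := h4 a1
          simp only [if_pos a1, if_neg h5]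
          split_ifs <;> omega
        · simp only [if_neg a1]
          omega
  let idx : W m s → Fin (s + 1) := fun v => (v.2.map Prod.snd).getD 0
  let L : W m s → Finset (Fin (s + 1) × ℕ) := fun v =>
    {idx v} ×ˢ lay v.1.val (g v) (u v).1.val
  have big : ∀ v, 0 < g v → ¬Ex v → g v ≤ (L v).card ∧ L v ⊆ univ ×ˢ range (m + 1) := by
    intro v hv hE
    obtain ⟨p, h1, h2, -⟩ := nex v hv hE
    have h3 := hu2 v hv
    have h4 := v.1.2
    have h5 := (u v).1.2
    simp only [D, h1, h2, c, if_true] at h3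
    constructor
    · simp only [L, card_product, card_singleton, one_mul, lay]
      split_ifs <;> simp <;> omega
    · refine product_subset_product (subset_univ _) fun k hk => ?_
      simp only [lay] at hk
      split_ifs at hk <;> simp at hk ⊢ <;> omega
  have disj : ((univ.filter fun v => 0 < g v ∧ ¬Ex v : Finset (W m s)) : Set (W m s)).PairwiseDisjoint L := by
    intro v hv w hw hne
    have hv' := (mem_filter.1 (mem_coe.1 hv)).2
    have hw' := (mem_filter.1 (mem_coe.1 hw)).2
    obtain ⟨⟨b, t⟩, h1, h2, h3⟩ := nex v hv'.1 hv'.2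
    obtain ⟨⟨b', t'⟩, h4, h5, h6⟩ := nex w hw'.1 hw'.2
    refine disjoint_left.2 fun z a1 a2 => ?_
    simp only [L, mem_product, mem_singleton, idx, h1, h4, Option.map, Option.getD] at a1 a2
    have ht : t = t' := a1.1.symm.trans a2.1
    subst ht
    have b1 := hu1 v hv'.1
    have b2 := hu2 v hv'.1
    have b3 := hu1 w hw'.1
    have b4 := hu2 w hw'.1
    have b5 := hu3 v hv'.1 w (Ne.symm hne) hw'.1
    have b6 := hu3 w hw'.1 v hne hv'.1
    have b7 := hv'.1
    have b8 := hw'.1
    have kill : b ≠ b' → (u v).1.val ≠ (u w).1.val := by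
      intro hb e
      obtain ⟨x, x1, x2⟩ := hg.2.1 ((u v).1, none)
      rw [dist_eq] at x2
      have key : ∃ bb : Bool, ∀ tt, D ((u v).1, some (bb, tt)) x ≤ g x := by
        obtain ⟨k, _ | ⟨bb, tt⟩⟩ := x
        · refine ⟨true, fun tt => ?_⟩
          simp only [D, c] at x2 ⊢
          split_ifs at x2 ⊢ <;> omega
        · refine ⟨false, fun tt => le_trans ?_ x2⟩
          cases bb
          · simp only [D, c, if_true, Bool.false_eq_true, if_false]
            split_ifs <;> omega
          · simp only [D, c, Bool.false_eq_true, if_false, if_true]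
            exact le_rfl
      obtain ⟨bb, hbb⟩ := key
      have fin : ∀ y : W m s, y.1 = (u v).1 → y.2 = some (bb, t) →
          ∀ x', cl x' = cl y → D x' x ≤ g x := by
        rintro ⟨y1, y2⟩ rfl rfl ⟨j, _ | ⟨b2, t2⟩⟩ hx
        · simp [cl] at hx
        · simp only [cl, Option.map, Prod.mk.injEq, Option.some.injEq] at hx
          obtain ⟨rfl, rfl⟩ := hx
          exact hbb t2
      by_cases hbb' : bb = b
      · exact h3 x x1 (fin _ rfl (by rw [h2, hbb']))
      · have : bb = b' := by
          revert hb hbb'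
          cases bb <;> cases b <;> cases b' <;> decide
        exact h6 x x1 (fin _ (Fin.ext e.symm) (by rw [h5, this]))
    have c1 := a1.2
    have c2 := a2.2
    simp only [D, h1, h2, h4, h5, c, if_true] at b1 b2 b3 b4 b5 b6
    by_cases hb : b = b'
    · subst hb
      simp only [if_true] at b5 b6
      simp only [lay] at c1 c2
      split_ifs at c1 c2 <;> simp only [mem_singleton, mem_Ioc, mem_Ico] at c1 c2 <;> omega
    · have b9 := kill hb
      rw [if_neg hb] at b5
      rw [if_neg (Ne.symm hb)] at b6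
      simp only [lay] at c1 c2
      split_ifs at c1 c2 <;> simp only [mem_singleton, mem_Ioc, mem_Ico] at c1 c2 <;> omega
  have e4 : ∑ v ∈ univ.filter (fun v => 0 < g v ∧ ¬Ex v), g v ≤ (s + 1) * (m + 1) :=
    calc _ ≤ ∑ v ∈ univ.filter (fun v => 0 < g v ∧ ¬Ex v), (L v).card :=
          sum_le_sum fun v hv => (big v (mem_filter.1 hv).2.1 (mem_filter.1 hv).2.2).1
      _ = ((univ.filter fun v => 0 < g v ∧ ¬Ex v).biUnion L).card := (card_biUnion disj).symm
      _ ≤ ((univ : Finset (Fin (s + 1))) ×ˢ range (m + 1)).card :=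
          card_le_card (biUnion_subset.2 fun v hv =>
            (big v (mem_filter.1 hv).2.1 (mem_filter.1 hv).2.2).2)
      _ = _ := by simp
  omega

theorem result :
    (∀ (V : Type) [Fintype V] [DecidableEq V] [Nontrivial V] (G : SimpleGraph V),
      G.Connected → G.IsBipartite → ∀ f, Irredundant G f →
        ∃ g, MinDom G g ∧ ∑ v, f v < 2 * ∑ v, g v) ∧
    ∀ r : ℝ, r < 2 → ∃ (V : Type) (_ : Fintype V) (_ : DecidableEq V) (_ : Nontrivial V)
      (G : SimpleGraph V), G.Connected ∧ G.IsBipartite ∧ ∃ f, Irredundant G f ∧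
        ∀ g, MinDom G g → r * ((∑ v, g v : ℕ) : ℝ) < ((∑ v, f v : ℕ) : ℝ) := by
  refine ⟨fun V _ _ _ G h1 h2 f hf => upper V G h1 h2 f hf, fun r hr => ?_⟩
  obtain ⟨k, hk⟩ := exists_nat_gt (4 / (2 - r))
  have hk0 : (0 : ℝ) < 2 - r := by linarith
  rw [div_lt_iff₀ hk0] at hk
  refine ⟨W (k + 1) (3 * (k + 2) * (k + 3)), inferInstance, inferInstance, inferInstance,
    Gr _ _, conn, bip, f0 _ _, f0_irr _ _, fun g hg => ?_⟩
  have h1 := g_sum _ _ g hg
  rw [f0_sum]
  have h2 : ∑ v, g v ≤ (3 * (k + 2) * (k + 3) + 1) * (k + 3) := by nlinarith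
  have h3 : ((∑ v, g v : ℕ) : ℝ) ≤ (3 * (k + 2) * (k + 3) + 1) * (k + 3) := by exact_mod_cast h2
  have h4 : (0 : ℝ) ≤ ((∑ v, g v : ℕ) : ℝ) := Nat.cast_nonneg _
  have h5 : (0 : ℝ) ≤ k := Nat.cast_nonneg _
  push_cast at h3 h4 ⊢
  have h6 : (0 : ℝ) < 3 * (k + 2) * (k + 3) + 1 := by positivity
  generalize (3 * ((k : ℝ) + 2) * (k + 3) + 1) = N at h3 h6 ⊢
  generalize (∑ v, (g v : ℝ)) = X at h3 h4 ⊢
  rcases le_total r 0 with h | h
  · nlinarith [mul_nonneg (neg_nonneg.2 h) h4, mul_pos h6 (show (0 : ℝ) < k + 1 by linarith)]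
  · have h7 : r * (k + 3) < 2 * (k + 1) := by nlinarith
    nlinarith [mul_le_mul_of_nonneg_left h3 h, mul_lt_mul_of_pos_left h7 h6]

end Pool.Agent.Results.MP_1867c4_co.Bip
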